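import Mathlib
import Pool.Agent.Lib.helper31.Yom

open Set

namespace Pool.Agent.Results.MP_d5a48f_an.ExpGrowth

/-- The plane, universal cover of `T² = ℝ²/(2πℤ)²`. -/
abbrev E := EuclideanSpace ℝ (Fin 2)

/-- Partial derivative `∂_j f (x)`. -/
noncomputable def pd (j : Fin 2) (f : E → ℝ) (x : E) : ℝ :=
  fderiv ℝ f x (EuclideanSpace.single j 1)

/-- `(u,p)` is a smooth solution of the incompressible Euler equations on `T²`
(`2π`-periodic fields on the plane) for `t ≥ 0`. -/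
def IsEuler (u : ℝ → E → E) (p : ℝ → E → ℝ) : Prop :=
  ContDiff ℝ ⊤ (Function.uncurry u) ∧ ContDiff ℝ ⊤ (Function.uncurry p) ∧
  (∀ t x j, u t (x + EuclideanSpace.single j (2 * Real.pi)) = u t x ∧
    p t (x + EuclideanSpace.single j (2 * Real.pi)) = p t x) ∧
  (∀ t, 0 ≤ t → ∀ x i, deriv (fun s => u s x i) t
    + ∑ j, u t x j * pd j (fun z => u t z i) x + pd i (p t) x = 0) ∧
  ∀ t, 0 ≤ t → ∀ x, ∑ j, pd j (fun z => u t z j) x = 0

open Pool.Agent.Lib.helper31.Yom Real in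
lemma euler : IsEuler (fun _ => U) (fun _ => P) := by
  have a : ∀ x v : E, fderiv ℝ (fun z : E => sin (z 0) * cos (z 1)) x v = _ :=
    pd_prod sin cos cos (fun a => -sin a) hasDerivAt_sin hasDerivAt_cos
  have b : ∀ x v : E, fderiv ℝ (fun z : E => -cos (z 0) * sin (z 1)) x v = _ :=
    pd_prod (fun a => -cos a) sin sin cos
      (fun a => (hasDerivAt_cos a).neg.congr_deriv (by simp)) hasDerivAt_sin
  simp only [neg_mul] at b
  refine ⟨U_smooth.comp contDiff_snd, P_smooth.comp contDiff_snd, fun t x j => ⟨?_, ?_⟩,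
    fun t _ x i => ?_, fun t _ x => ?_⟩
  · ext i
    fin_cases i <;> fin_cases j <;> simp
  · fin_cases j <;> simp [P]
  · fin_cases i
    · simp only [pd, Fin.sum_univ_two, pd_P, Fin.zero_eta, U0, U1, a]
      simp
      linear_combination (sin (x 0) * cos (x 0)) * sin_sq_add_cos_sq (x 1)
    · simp only [pd, Fin.sum_univ_two, pd_P, Fin.mk_one, U0, U1, b]
      simp
      linear_combination (sin (x 1) * cos (x 1)) * sin_sq_add_cos_sq (x 0)
  · simp only [pd, Fin.sum_univ_two, U0, U1, a, b]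
    simp

open Pool.Agent.Lib.helper31.Yom in
theorem result :
    ∃ (u : ℝ → E → E) (p : ℝ → E → ℝ), IsEuler u p ∧
      (∃ C : ℝ, ∀ t x, ‖u t x‖ ≤ C ∧ ‖fderiv ℝ (u t) x‖ ≤ C) ∧
      ∃ Φ : ℝ → E → E, (∀ x, Φ 0 x = x) ∧
        (∀ x t, HasDerivAt (fun s => Φ s x) (u t (Φ t x)) t) ∧
        ∀ k : ℕ, ∃ l : ℝ → E, ContDiff ℝ k l ∧ (∀ s, l s 1 = s) ∧
          (∀ t, 0 ≤ t → eVariationOn (Φ t ∘ l) (Icc 0 1) ≠ ⊤) ∧
          ∃ c γ : ℝ, 0 < c ∧ 0 < γ ∧ ∀ t, 0 ≤ t →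
            ENNReal.ofReal (c * Real.exp (γ * t)) ≤ eVariationOn (Φ t ∘ l) (Icc 0 1) := by
  refine ⟨fun _ => U, fun _ => P, euler, ⟨2, fun t x => ⟨U_bd x, ?_⟩⟩, ?_⟩
  · exact norm_fderiv_le_of_lipschitz ℝ U_lip
  choose α h0 hα using global_flow U 2 2 U_lip U_bd
  refine ⟨fun t x => α x t, h0, hα, fun k => ⟨l (2 * (k + 1) + 1),
    (l_smooth (k + 1)).of_le (by exact_mod_cast Nat.le_succ k), fun s => rfl, fun t ht => ?_,
    _, _, by positivity, by positivity, growth _ h0 hα (2 * (k + 1))⟩⟩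
  refine (flow_lip _ h0 hα t ht).comp_boundedVariationOn ?_
  have h1 : ContDiff ℝ 1 (l (2 * (k + 1) + 1)) :=
    (l_smooth (k + 1)).of_le (by exact_mod_cast Nat.succ_le_succ (Nat.zero_le k))
  obtain ⟨K, hK⟩ := h1.contDiffOn.exists_lipschitzOnWith (s := Icc (0:ℝ) 1) one_ne_zero
    (convex_Icc 0 1) isCompact_Icc
  have hid : BoundedVariationOn (id : ℝ → ℝ) (Icc (0:ℝ) 1) :=
    (monotone_id.monotoneOn _).boundedVariationOn (C := 1)
      (fun x hx => by simpa [abs_of_nonneg hx.1] using hx.2)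
  exact hK.comp_boundedVariationOn (g := id) (fun x hx => hx) hid

end Pool.Agent.Results.MP_d5a48f_an.ExpGrowth
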